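import Pool.Agent.W458.MF.OStm

/-! # Project MFO: block diagonal isometries in the commutator subgroup -/

set_option autoImplicit false

namespace Pool.Agent.W85.MF

open Pool.Agent.W458.MF Matrix
open scoped commutatorElement

section
variable {g l : ℕ}

/-- the block diagonal isometry attached to an invertible matrix -/
def be : (Matrix (Fin g) (Fin g) (ZMod l))ˣ →* (Matrix (Fin g ⊕ Fin g) (Fin g ⊕ Fin g) (ZMod l))ˣ where
  toFun u :=
    { val := fromBlocks u.val 0 0 (u⁻¹).val.transpose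
      inv := fromBlocks (u⁻¹).val 0 0 u.val.transpose
      val_inv := by
        rw [fromBlocks_multiply]
        simp [← transpose_mul]
      inv_val := by
        rw [fromBlocks_multiply]
        simp [← transpose_mul] }
  map_one' := by
    apply Units.ext
    simp
  map_mul' u v := by
    apply Units.ext
    show fromBlocks (u * v).val 0 0 ((u * v)⁻¹).val.transpose = fromBlocks u.val 0 0 (u⁻¹).val.transpose *
      fromBlocks v.val 0 0 (v⁻¹).val.transpose
    rw [fromBlocks_multiply, _root_.mul_inv_rev, Units.val_mul, Units.val_mul, transpose_mul]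
    simp

lemma be_val (u : (Matrix (Fin g) (Fin g) (ZMod l))ˣ) :
    (be u).val = fromBlocks u.val 0 0 (u⁻¹).val.transpose := rfl

lemma be_mem (u : (Matrix (Fin g) (Fin g) (ZMod l))ˣ) : be u ∈ isometries g l := by
  show (be u).val * splitForm g l * (be u).val.transpose = splitForm g l
  rw [be_val, splitForm, fromBlocks_transpose, fromBlocks_multiply, fromBlocks_multiply]
  simp [← transpose_mul]

/-- the form as an isometry -/
def jj : (Matrix (Fin g ⊕ Fin g) (Fin g ⊕ Fin g) (ZMod l))ˣ :=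
  ⟨splitForm g l, splitForm g l, splitForm_mul g l, splitForm_mul g l⟩

lemma jj_mem : (jj : (Matrix (Fin g ⊕ Fin g) (Fin g ⊕ Fin g) (ZMod l))ˣ) ∈ isometries g l := by
  show splitForm g l * splitForm g l * (splitForm g l).transpose = splitForm g l
  rw [splitForm_transpose, splitForm_mul, one_mul]

/-- diagonal matrices -/
def dg : (Fin g → (ZMod l)ˣ) →* (Matrix (Fin g) (Fin g) (ZMod l))ˣ where
  toFun d :=
    { val := diagonal fun i => (d i : ZMod l)
      inv := diagonal fun i => ((d i)⁻¹ : (ZMod l)ˣ).val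
      val_inv := by
        rw [diagonal_mul_diagonal]
        simp
      inv_val := by
        rw [diagonal_mul_diagonal]
        simp }
  map_one' := by
    apply Units.ext
    simp
  map_mul' u v := by
    apply Units.ext
    show diagonal _ = diagonal _ * diagonal _
    rw [diagonal_mul_diagonal]
    simp

lemma dg_val (d : Fin g → (ZMod l)ˣ) : (dg d).val = diagonal fun i => (d i : ZMod l) := rfl

lemma dg_inv_val (d : Fin g → (ZMod l)ˣ) :
    ((dg d)⁻¹).val = diagonal fun i => ((d i)⁻¹ : (ZMod l)ˣ).val := rfl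

/-- transvections -/
def tv {i j : Fin g} (h : i ≠ j) (c : ZMod l) : (Matrix (Fin g) (Fin g) (ZMod l))ˣ :=
  ⟨transvection i j c, transvection i j (-c),
    by rw [transvection_mul_transvection_same _ _ h, add_neg_cancel, transvection_zero],
    by rw [transvection_mul_transvection_same _ _ h, neg_add_cancel, transvection_zero]⟩

lemma tv_add {i j : Fin g} (h : i ≠ j) (c d : ZMod l) : tv h c * tv h d = tv h (c + d) := by
  apply Units.ext
  exact transvection_mul_transvection_same _ _ h c d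

lemma tv_inv {i j : Fin g} (h : i ≠ j) (c : ZMod l) : (tv h c)⁻¹ = tv h (-c) := by
  apply Units.ext
  rfl

/-- permutation matrices -/
def pw (σ : Equiv.Perm (Fin g)) : (Matrix (Fin g) (Fin g) (ZMod l))ˣ :=
  ⟨σ.toPEquiv.toMatrix, σ.symm.toPEquiv.toMatrix, by
    rw [PEquiv.toMatrix_toPEquiv_mul]
    ext a b
    simp [PEquiv.toMatrix_apply, one_apply], by
    rw [PEquiv.toMatrix_toPEquiv_mul]
    ext a b
    simp [PEquiv.toMatrix_apply, one_apply]⟩

lemma pw_conj (σ : Equiv.Perm (Fin g)) (d : Fin g → (ZMod l)ˣ) :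
    pw σ * dg d = dg (fun i => d (σ i)) * pw σ := by
  apply Units.ext
  show σ.toPEquiv.toMatrix * diagonal _ = diagonal _ * σ.toPEquiv.toMatrix
  rw [PEquiv.toMatrix_toPEquiv_mul, PEquiv.mul_toMatrix_toPEquiv]
  ext a b
  simp only [submatrix_apply, id, diagonal_apply]
  by_cases h : σ a = b
  · rw [if_pos h, if_pos (by rw [← h]; simp)]
  · rw [if_neg h, if_neg (by intro h2; apply h; rw [h2]; simp)]

lemma dg_tv {i j : Fin g} (h : i ≠ j) (c : ZMod l) (d : Fin g → (ZMod l)ˣ) :
    dg d * tv h c = tv h ((d i : ZMod l) * c * (((d j)⁻¹ : (ZMod l)ˣ) : ZMod l)) * dg d := by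
  apply Units.ext
  show diagonal _ * transvection i j c = transvection i j _ * diagonal _
  ext a b
  rw [diagonal_mul, mul_diagonal, transvection, transvection, Matrix.add_apply, Matrix.add_apply, single_apply,
    single_apply, one_apply]
  by_cases h1 : i = a ∧ j = b
  · rw [if_pos h1, if_pos h1]
    obtain ⟨rfl, rfl⟩ := h1
    rw [if_neg h, zero_add, zero_add, mul_assoc, Units.inv_mul, mul_one]
  · rw [if_neg h1, if_neg h1, add_zero]
    by_cases h2 : a = b
    · rw [h2]; simp
    · rw [if_neg h2]; simp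

/-- matrices whose block diagonal matrix is in `Omega` -/
def NN (g l : ℕ) : Subgroup (Matrix (Fin g) (Fin g) (ZMod l))ˣ := (Omega g l).comap be

lemma comm_mem (u v : (Matrix (Fin g) (Fin g) (ZMod l))ˣ) : ⁅u, v⁆ ∈ NN g l := by
  show be ⁅u, v⁆ ∈ Omega g l
  rw [map_commutatorElement]
  exact Subgroup.commutator_mem_commutator (be_mem u) (be_mem v)

lemma sq_mem (d : Fin g → (ZMod l)ˣ) : dg (d * d) ∈ NN g l := by
  have h : be (dg (d * d)) = ⁅be (dg d), (jj : (Matrix (Fin g ⊕ Fin g) (Fin g ⊕ Fin g) (ZMod l))ˣ)⁆ := by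
    rw [commutatorElement_def, mul_assoc (be (dg d) * jj), ← _root_.mul_inv_rev]
    rw [eq_mul_inv_iff_mul_eq]
    apply Units.ext
    rw [Units.val_mul, Units.val_mul, Units.val_mul]
    show (be (dg (d * d))).val * (splitForm g l * (be (dg d)).val) = (be (dg d)).val * splitForm g l
    rw [be_val, be_val, splitForm, fromBlocks_multiply, fromBlocks_multiply, fromBlocks_multiply,
      dg_val, dg_inv_val, dg_val, dg_inv_val]
    simp [diagonal_transpose, diagonal_mul_diagonal]
  show be (dg (d * d)) ∈ Omega g l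
  rw [h]
  exact Subgroup.commutator_mem_commutator (be_mem _) jj_mem

lemma tv_mem [Fact l.Prime] (hl : 5 ≤ l) {i j : Fin g} (h : i ≠ j) (c : ZMod l) : tv h c ∈ NN g l := by
  have h3 : (3 : ZMod l) ≠ 0 := by
    intro h0
    have : ((3 : ℕ) : ZMod l) = 0 := by exact_mod_cast h0
    rw [ZMod.natCast_eq_zero_iff] at this
    have := Nat.le_of_dvd (by norm_num) this
    omega
  have h4 : (4 : ZMod l) ≠ 0 := by
    intro h0
    have : ((4 : ℕ) : ZMod l) = 0 := by exact_mod_cast h0
    rw [ZMod.natCast_eq_zero_iff] at this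
    have := Nat.le_of_dvd (by norm_num) this
    omega
  have hc := comm_mem (dg (Pi.mulSingle i (Units.mk0 (4 : ZMod l) h4))) (tv h (c / 3))
  have e : ⁅dg (Pi.mulSingle i (Units.mk0 (4 : ZMod l) h4)), tv h (c / 3)⁆ = tv h c := by
    rw [commutatorElement_def, dg_tv, mul_assoc (tv h _), mul_inv_cancel, mul_one, tv_inv, tv_add]
    congr 1
    rw [Pi.mulSingle_eq_same, Pi.mulSingle_eq_of_ne h.symm]
    simp only [Units.val_mk0, inv_one, Units.val_one, mul_one]
    field_simp
    ring
  rwa [e] at hc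

lemma sw_mem {i j : Fin g} (h : i ≠ j) (x : (ZMod l)ˣ) :
    dg (Pi.mulSingle i x * (Pi.mulSingle j x)⁻¹) ∈ NN g l := by
  have hc := comm_mem (dg (Pi.mulSingle i x)) (pw (l := l) (Equiv.swap i j))
  have e : ⁅dg (Pi.mulSingle i x), pw (l := l) (Equiv.swap i j)⁆ =
      dg (Pi.mulSingle i x * (Pi.mulSingle j x)⁻¹) := by
    rw [commutatorElement_def, mul_assoc (dg _), ← map_inv, pw_conj, ← mul_assoc,
      mul_assoc _ (pw _) (pw _)⁻¹, mul_inv_cancel, mul_one, ← map_mul]
    congr 2
    funext k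
    rw [Pi.inv_apply, Pi.inv_apply]
    congr 1
    by_cases h1 : k = j
    · subst h1
      rw [Equiv.swap_apply_right, Pi.mulSingle_eq_same, Pi.mulSingle_eq_same]
    · rw [Pi.mulSingle_eq_of_ne h1]
      by_cases h2 : k = i
      · subst h2
        rw [Equiv.swap_apply_left, Pi.mulSingle_eq_of_ne h.symm]
      · rw [Equiv.swap_apply_of_ne_of_ne h2 h1, Pi.mulSingle_eq_of_ne h2]
  rwa [e] at hc

lemma dg_mem (hg : 2 ≤ g) (d : Fin g → (ZMod l)ˣ) (y : (ZMod l)ˣ) (hy : ∏ i, d i = y * y) :
    dg d ∈ NN g l := by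
  obtain ⟨i0, hi0⟩ : ∃ i0 : Fin g, i0 = ⟨0, by omega⟩ := ⟨_, rfl⟩
  have h1 : d = (∏ i, (Pi.mulSingle i (d i) * (Pi.mulSingle i0 (d i))⁻¹)) *
      (Pi.mulSingle i0 y * Pi.mulSingle i0 y) := by
    rw [← Pi.mulSingle_mul, ← hy, Finset.prod_mul_distrib, Finset.univ_prod_mulSingle,
      Finset.prod_inv_distrib]
    have : ∏ i, (Pi.mulSingle i0 (d i) : Fin g → (ZMod l)ˣ) = Pi.mulSingle i0 (∏ i, d i) := by
      exact (map_prod (MonoidHom.mulSingle (fun _ : Fin g => (ZMod l)ˣ) i0) d Finset.univ).symm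
    rw [this, inv_mul_cancel_right]
  show d ∈ (NN g l).comap dg
  rw [h1]
  refine mul_mem (Subgroup.prod_mem _ fun i _ => ?_) (sq_mem _)
  show dg _ ∈ NN g l
  by_cases h : i = i0
  · rw [h, mul_inv_cancel, map_one]; exact one_mem _
  · exact sw_mem h _

end

theorem omeg : St_OMEG := by
  intro g l hg hlp hl M hM hsq
  have : Fact l.Prime := ⟨hlp⟩
  obtain ⟨L, L', D, hD⟩ := Pivot.exists_list_transvec_mul_diagonal_mul_list_transvec M
  have hdet : M.det = ∏ i, D i := by
    rw [hD, det_mul, det_mul, TransvectionStruct.det_toMatrix_prod,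
      TransvectionStruct.det_toMatrix_prod, one_mul, mul_one, det_diagonal]
  have hD0 : ∀ i, D i ≠ 0 := by
    intro i h0
    apply hM
    rw [hdet]
    exact Finset.prod_eq_zero (Finset.mem_univ i) h0
  obtain ⟨y, hy⟩ := hsq
  have hy0 : y ≠ 0 := by
    intro h0
    apply hM
    rw [hy, h0, mul_zero]
  -- lists of transvections
  have hL : ∀ L : List (TransvectionStruct (Fin g) (ZMod l)), ∃ u ∈ NN g l,
      u.val = (L.map TransvectionStruct.toMatrix).prod := by
    intro L
    induction L with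
    | nil => exact ⟨1, one_mem _, by simp⟩
    | cons t L ih =>
      obtain ⟨u, hu, hu2⟩ := ih
      refine ⟨tv t.hij t.c * u, mul_mem (tv_mem hl t.hij t.c) hu, ?_⟩
      rw [Units.val_mul, hu2, List.map_cons, List.prod_cons]
      rfl
  obtain ⟨u1, hu1, hv1⟩ := hL L
  obtain ⟨u2, hu2, hv2⟩ := hL L'
  have hd := dg_mem (l := l) hg (fun i => Units.mk0 (D i) (hD0 i)) (Units.mk0 y hy0) (by
    apply Units.ext
    rw [Units.val_mul, Units.val_mk0, ← hy, hdet, Units.coe_prod]
    simp)
  have hu := mul_mem (mul_mem hu1 hd) hu2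
  obtain ⟨u, hue⟩ : ∃ u : (Matrix (Fin g) (Fin g) (ZMod l))ˣ,
    u = u1 * dg (fun i => Units.mk0 (D i) (hD0 i)) * u2 := ⟨_, rfl⟩
  rw [← hue] at hu
  have huM : u.val = M := by
    rw [hue, Units.val_mul, Units.val_mul, hv1, hv2, dg_val, hD]
    simp
  refine ⟨be u, hu, ?_⟩
  rw [be_val, ← huM, Matrix.coe_units_inv]

end Pool.Agent.W85.MF
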